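import Pool.Agent.H17.PicardExt

/-!
# Holomorphic maps from complements of analytic subsets of `ℂ^g` into hyperbolic varieties
-/

open Topology Filter Pool.Agent.H17

namespace Pool.Agent.H66.Lang

/-- `Z` is a (closed) analytic subset of `ℂ^g`: near every point of `ℂ^g` it is the common zero set
of finitely many holomorphic functions. -/
def IsAnalyticSubset {g : ℕ} (Z : Set (Fin g → ℂ)) : Prop :=
  ∀ p : Fin g → ℂ, ∃ (k : ℕ) (h : (Fin g → ℂ) → Fin k → ℂ), AnalyticAt ℂ h p ∧
    ∀ᶠ x in 𝓝 p, (x ∈ Z ↔ h x = 0)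

/-- `f` is holomorphic on `U ⊆ ℂ^g` as a map into `ℙ^N`: near every point of `U` it is given by
holomorphic homogeneous coordinates without common zero. -/
def HolomorphicIntoPN {g N : ℕ} (f : (Fin g → ℂ) → PN N) (U : Set (Fin g → ℂ)) : Prop :=
  ∀ p ∈ U, ∃ φ : (Fin g → ℂ) → Fin (N + 1) → ℂ, AnalyticAt ℂ φ p ∧
    ∀ᶠ x in 𝓝 p, ∃ h : φ x ≠ 0, f x = Projectivization.mk ℂ (φ x) h

/-- The complex line through `p` and `q`. -/
def line {g : ℕ} (p q : Fin g → ℂ) (s : ℂ) : Fin g → ℂ := p + s • (q - p)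

lemma line_zero {g : ℕ} (p q : Fin g → ℂ) : line p q 0 = p := by simp [line]

lemma line_one {g : ℕ} (p q : Fin g → ℂ) : line p q 1 = q := by simp [line]

lemma analyticAt_line {g : ℕ} (p q : Fin g → ℂ) (s : ℂ) : AnalyticAt ℂ (line p q) s := by
  unfold line
  fun_prop

/-- A closed set locally defined by one-variable holomorphic equations, which is not everything, is
discrete. -/
lemma eventually_notMem {S : Set ℂ} (hS : ∀ s : ℂ, ∃ (k : ℕ) (h : ℂ → Fin k → ℂ),
    AnalyticAt ℂ h s ∧ ∀ᶠ x in 𝓝 s, (x ∈ S ↔ h x = 0)) {s₁ : ℂ} (hs₁ : s₁ ∉ S) (s₀ : ℂ) :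
    ∀ᶠ s in 𝓝[≠] s₀, s ∉ S := by
  -- if `S` accumulates at a point then it contains a neighbourhood of it
  have key : ∀ s₀ : ℂ, (∃ᶠ s in 𝓝[≠] s₀, s ∈ S) → ∀ᶠ s in 𝓝 s₀, s ∈ S := by
    intro s₀ hfreq
    obtain ⟨k, h, hh, he⟩ := hS s₀
    have h1 : ∃ᶠ s in 𝓝[≠] s₀, h s = 0 :=
      (hfreq.and_eventually (he.filter_mono nhdsWithin_le_nhds)).mono fun s hs => hs.2.mp hs.1
    have h2 := hh.frequently_zero_iff_eventually_zero.mp h1
    filter_upwards [h2, he] with s h3 h4
    exact h4.mpr h3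
  set T : Set ℂ := {s | ∀ᶠ s' in 𝓝 s, s' ∈ S} with hT
  have hTopen : IsOpen T := by
    rw [isOpen_iff_mem_nhds]
    intro s hs
    exact eventually_eventually_nhds.mpr hs
  have hTclosed : IsClosed T := by
    rw [← isOpen_compl_iff, isOpen_iff_mem_nhds]
    intro s hs
    by_contra hcon
    have h1 : ∃ᶠ s' in 𝓝 s, s' ∈ T := by
      intro h
      exact hcon h
    have h2 : ∃ᶠ s' in 𝓝[≠] s, s' ∈ S := by
      rw [frequently_nhdsWithin_iff]
      refine h1.mono fun s' hs' => ⟨hs'.self_of_nhds, ?_⟩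
      rintro (rfl : s' = s)
      exact hs hs'
    exact hs (key s h2)
  have hTne : T ≠ Set.univ := by
    intro h
    have h1 : s₁ ∈ T := by rw [h]; trivial
    exact hs₁ h1.self_of_nhds
  have hTempty : T = ∅ := by
    rcases isClopen_iff.mp ⟨hTclosed, hTopen⟩ with h | h
    · exact h
    · exact absurd h hTne
  by_contra hcon
  have h1 : s₀ ∈ T := key s₀ (by
    rw [not_eventually] at hcon
    simpa using hcon)
  rw [hTempty] at h1
  exact h1

/-- The restriction of an analytic subset to a line. -/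
lemma line_analytic {g : ℕ} {Z : Set (Fin g → ℂ)} (hZ : IsAnalyticSubset Z) (p q : Fin g → ℂ)
    (s : ℂ) : ∃ (k : ℕ) (h : ℂ → Fin k → ℂ), AnalyticAt ℂ h s ∧
      ∀ᶠ x in 𝓝 s, (x ∈ line p q ⁻¹' Z ↔ h x = 0) := by
  obtain ⟨k, h, hh, he⟩ := hZ (line p q s)
  exact ⟨k, fun x => h (line p q x), hh.comp (analyticAt_line p q s),
    (analyticAt_line p q s).continuousAt.eventually he⟩

/-- The zero locus is closed. -/
lemma mem_zeroLocus_of_punctured {N : ℕ} {κ : Type} {d : κ → ℕ}
    {G : κ → MvPolynomial (Fin (N + 1)) ℂ} (hG : ∀ l, (G l).IsHomogeneous (d l)) {e : ℂ → PN N}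
    {s₀ : ℂ} {U : Set ℂ} (he : HolomorphicInto e U) (hs₀ : s₀ ∈ U)
    (h : ∀ᶠ s in 𝓝[≠] s₀, e s ∈ zeroLocus G) : e s₀ ∈ zeroLocus G := by
  obtain ⟨φ, hφ, hev⟩ := he s₀ hs₀
  intro l
  obtain ⟨h0, h1⟩ := hev.self_of_nhds
  rw [h1, vanishesAt_mk_iff (hG l)]
  have hφj : ∀ j, AnalyticAt ℂ (fun z => φ z j) s₀ := analyticAt_pi_iff.mp hφ
  have hcont : ContinuousAt (fun z => MvPolynomial.eval (φ z) (G l)) s₀ := by
    have h2 : Continuous fun v : Fin (N + 1) → ℂ => MvPolynomial.eval v (G l) :=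
      MvPolynomial.continuous_eval _
    exact h2.continuousAt.comp hφ.continuousAt
  have hlim : Tendsto (fun z => MvPolynomial.eval (φ z) (G l)) (𝓝[≠] s₀)
      (𝓝 (MvPolynomial.eval (φ s₀) (G l))) := hcont.tendsto.mono_left nhdsWithin_le_nhds
  have hzero : Tendsto (fun z => MvPolynomial.eval (φ z) (G l)) (𝓝[≠] s₀) (𝓝 0) := by
    refine tendsto_const_nhds.congr' ?_
    filter_upwards [h, hev.filter_mono nhdsWithin_le_nhds] with z hz hz2
    obtain ⟨h3, h4⟩ := hz2
    have h5 := hz l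
    rw [h4, vanishesAt_mk_iff (hG l)] at h5
    exact h5.symm
  exact tendsto_nhds_unique hlim hzero

/-- **Main reduction.** If `X` is a closed algebraic subset of `ℙ^N` without non-constant entire
curves then every holomorphic map from the complement of an analytic subset of `ℂ^g` to `X` is
constant. -/
theorem const_of_brody {N g : ℕ} {κ : Type} {d : κ → ℕ} {G : κ → MvPolynomial (Fin (N + 1)) ℂ}
    (hG : ∀ l, (G l).IsHomogeneous (d l))
    (hX : ∀ f : ℂ → PN N, HolomorphicInto f Set.univ → (∀ z, f z ∈ zeroLocus G) →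
      ∀ z w, f z = f w)
    {Z : Set (Fin g → ℂ)} (hZ : IsAnalyticSubset Z) {f : (Fin g → ℂ) → PN N}
    (hf : HolomorphicIntoPN f Zᶜ) (hfX : ∀ p ∉ Z, f p ∈ zeroLocus G) {p q : Fin g → ℂ}
    (hp : p ∉ Z) (hq : q ∉ Z) : f p = f q := by
  classical
  set S : Set ℂ := line p q ⁻¹' Z with hS
  have h0S : (0 : ℂ) ∉ S := by
    simp only [hS, Set.mem_preimage, line_zero]
    exact hp
  have h1S : (1 : ℂ) ∉ S := by
    simp only [hS, Set.mem_preimage, line_one]
    exact hq
  have hdisc : ∀ s₀ : ℂ, ∀ᶠ s in 𝓝[≠] s₀, s ∉ S := fun s₀ =>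
    eventually_notMem (line_analytic hZ p q) h0S s₀
  have hline : HolomorphicInto (fun s => f (line p q s)) Sᶜ := by
    intro s hs
    obtain ⟨φ, hφ, he⟩ := hf (line p q s) hs
    exact ⟨fun x => φ (line p q x), hφ.comp (analyticAt_line p q s),
      (analyticAt_line p q s).continuousAt.eventually he⟩
  -- extension at the points of `S`
  have hext : ∀ s₀ : ℂ, ∃ (r : ℝ) (e : ℂ → PN N), 0 < r ∧
      HolomorphicInto e (Metric.ball s₀ r) ∧
      ∀ s ∈ Metric.ball s₀ r, s ≠ s₀ → s ∉ S ∧ e s = f (line p q s) := by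
    intro s₀
    obtain ⟨r, hr, hball⟩ : ∃ r > 0, ∀ s ∈ Metric.ball s₀ r, s ≠ s₀ → s ∉ S := by
      have h1 := hdisc s₀
      rw [eventually_nhdsWithin_iff, Metric.eventually_nhds_iff_ball] at h1
      obtain ⟨r, hr, h2⟩ := h1
      exact ⟨r, hr, fun s hs hss => h2 s hs hss⟩
    have hr0 : (r : ℂ) ≠ 0 := by exact_mod_cast hr.ne'
    have hmem : ∀ ζ ∈ puncturedDisc, s₀ + r * ζ ∉ S := by
      intro ζ hζ
      apply hball
      · rw [Metric.mem_ball, dist_eq_norm, add_sub_cancel_left, norm_mul, Complex.norm_real,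
          Real.norm_of_nonneg hr.le]
        have := mem_ball_zero_iff.mp hζ.1
        nlinarith
      · intro h
        have h2 : (r : ℂ) * ζ = 0 := by
          have h3 : s₀ + r * ζ = s₀ := h
          linear_combination h3
        exact hζ.2 ((mul_eq_zero.mp h2).resolve_left hr0)
    obtain ⟨e, he1, he2⟩ := picard_of_brody hG hX
      (f := fun ζ => f (line p q (s₀ + r * ζ)))
      (hline.comp (u := fun ζ => s₀ + r * ζ) (fun ζ _ => by fun_prop) hmem)
      (fun ζ hζ => hfX _ (hmem ζ hζ))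
    refine ⟨r, fun s => e ((s - s₀) / r), hr, ?_, ?_⟩
    · refine he1.comp (u := fun s => (s - s₀) / r) (fun s _ => ?_) ?_
      · have : AnalyticAt ℂ (fun s : ℂ => (s - s₀) / r) s := by
          have h1 : AnalyticAt ℂ (fun s : ℂ => (s - s₀)) s := by fun_prop
          exact h1.div_const
        exact this
      · intro s hs
        rw [Metric.mem_ball, dist_eq_norm] at hs
        rw [mem_ball_zero_iff, norm_div, Complex.norm_real, Real.norm_of_nonneg hr.le,
          div_lt_one hr]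
        exact hs
    · intro s hs hss
      refine ⟨hball s hs hss, ?_⟩
      have h1 : (s - s₀) / r ∈ puncturedDisc := by
        refine ⟨?_, ?_⟩
        · rw [mem_ball_zero_iff, norm_div, Complex.norm_real, Real.norm_of_nonneg hr.le,
            div_lt_one hr, ← dist_eq_norm]
          exact hs
        · intro h
          have h2 : (s - s₀) / r = 0 := h
          rw [div_eq_zero_iff] at h2
          rcases h2 with h2 | h2
          · exact hss (sub_eq_zero.mp h2)
          · exact hr0 h2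
      have h2 := he2 _ h1
      simp only at h2 ⊢
      rw [h2]
      congr 2
      field_simp
      ring
  choose r e hr he1 he2 using hext
  -- the entire curve
  set E : ℂ → PN N := fun s => if s ∈ S then e s s else f (line p q s) with hE
  have hEeq : ∀ s₀ s, s ∈ Metric.ball s₀ (r s₀) → E s = e s₀ s ∨ (s = s₀ ∧ s ∉ S) := by
    intro s₀ s hs
    by_cases hss : s = s₀
    · subst hss
      by_cases hsS : s ∈ S
      · left
        simp only [hE, if_pos hsS]
      · right
        exact ⟨rfl, hsS⟩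
    · left
      obtain ⟨h1, h2⟩ := he2 s₀ s hs hss
      simp only [hE, if_neg h1]
      exact h2.symm
  have hSopen : ∀ s₀ ∉ S, ∀ᶠ s in 𝓝 s₀, s ∉ S := by
    intro s₀ hs₀
    have h1 := hdisc s₀
    rw [eventually_nhdsWithin_iff] at h1
    filter_upwards [h1] with s hs
    by_cases hss : s = s₀
    · rw [hss]; exact hs₀
    · exact hs hss
  have hEhol : HolomorphicInto E Set.univ := by
    intro s₀ _
    by_cases hs₀ : s₀ ∈ S
    · obtain ⟨φ, hφ, hev⟩ := he1 s₀ s₀ (Metric.mem_ball_self (hr s₀))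
      refine ⟨φ, hφ, ?_⟩
      filter_upwards [hev, Metric.ball_mem_nhds s₀ (hr s₀)] with s hs hsb
      rcases hEeq s₀ s hsb with h | ⟨h1, h2⟩
      · rw [h]
        exact hs
      · rw [h1] at h2
        exact absurd hs₀ h2
    · obtain ⟨φ, hφ, hev⟩ := hline s₀ hs₀
      refine ⟨φ, hφ, ?_⟩
      filter_upwards [hev, hSopen s₀ hs₀] with s hs hsS
      simp only [hE, if_neg hsS]
      exact hs
  have hEX : ∀ s, E s ∈ zeroLocus G := by
    intro s
    by_cases hs : s ∈ S
    · refine mem_zeroLocus_of_punctured hG hEhol (Set.mem_univ s) ?_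
      filter_upwards [hdisc s] with y hy
      simp only [hE, if_neg hy]
      exact hfX _ hy
    · simp only [hE, if_neg hs]
      exact hfX _ hs
  have hfin := hX E hEhol hEX 0 1
  simp only [hE, if_neg h0S, if_neg h1S, line_zero, line_one] at hfin
  exact hfin

end Pool.Agent.H66.Lang
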